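import Pool.Agent.H31.LV.Basic
import Pool.Agent.H31.LV.Targets

/-!
# The sums over a line in coordinates (row wEA)
-/

set_option autoImplicit false

namespace Pool.Agent.H73.LVP.EA

open Finset Pool.Agent.H24.CL Pool.Agent.H24.LV Pool.Agent.H31.LV

theorem frac (q D : ℕ) (hq : 1 ≤ q) (hD : 1 ≤ D) (u v : ℤ) (huv : u * D + v * q = 1) (A : ℤ)
    (i n : ℕ) (r w : ℤ) (hr : (q : ℤ) ∣ (D : ℤ) * r - w) :
    ∃ z : ℤ, ((D : ℝ) ^ i * A) * ((n : ℝ) + w / D) ^ (i + 1) / q =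
      ((D : ℝ) ^ i * A) * ((n : ℝ) + r) ^ (i + 1) / q + v * A * (w : ℝ) ^ (i + 1) / D + z := by
  have h1 : (q : ℤ) ∣ ((D : ℤ) * n + w) ^ (i + 1) - ((D : ℤ) * (n + r)) ^ (i + 1) := by
    refine dvd_trans ?_ (sub_dvd_pow_sub_pow _ _ _)
    obtain ⟨t, ht⟩ := hr
    exact ⟨-t, by linear_combination (-1 : ℤ) * ht⟩
  have h2 : (q : ℤ) ∣ u * A * ((D : ℤ) * n + w) ^ (i + 1) - (D : ℤ) ^ i * A * (n + r) ^ (i + 1) := by
    obtain ⟨t, ht⟩ := h1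
    refine ⟨u * A * t - v * ((D : ℤ) ^ i * A * (n + r) ^ (i + 1)), ?_⟩
    rw [mul_pow] at ht
    have e : (D : ℤ) ^ (i + 1) = (D : ℤ) ^ i * D := pow_succ _ _
    rw [e] at ht
    linear_combination (u * A) * ht + ((D : ℤ) ^ i * A * (n + r) ^ (i + 1)) * huv
  have h3 : (D : ℤ) ∣ ((D : ℤ) * n + w) ^ (i + 1) - w ^ (i + 1) := by
    refine dvd_trans ?_ (sub_dvd_pow_sub_pow _ _ _)
    exact ⟨n, by ring⟩
  obtain ⟨z₁, hz₁⟩ := h2
  obtain ⟨z₂, hz₂⟩ := h3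
  refine ⟨z₁ + v * A * z₂, ?_⟩
  have hq0 : (q : ℝ) ≠ 0 := by exact_mod_cast (show q ≠ 0 by omega)
  have hD0 : (D : ℝ) ≠ 0 := by exact_mod_cast (show D ≠ 0 by omega)
  have r1 : (u : ℝ) * A * ((D : ℝ) * n + w) ^ (i + 1) - (D : ℝ) ^ i * A * (n + r) ^ (i + 1) =
      q * z₁ := by exact_mod_cast hz₁
  have r2 : ((D : ℝ) * n + w) ^ (i + 1) - (w : ℝ) ^ (i + 1) = D * z₂ := by exact_mod_cast hz₂
  have r3 : (u : ℝ) * D + v * q = 1 := by exact_mod_cast huv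
  have e0 : (n : ℝ) + w / D = ((D : ℝ) * n + w) / D := by
    field_simp
  have e1 : ((D : ℝ) ^ i * A) * ((n : ℝ) + w / D) ^ (i + 1) / q =
      A * ((D : ℝ) * n + w) ^ (i + 1) / (D * q) := by
    rw [e0, div_pow, pow_succ (D : ℝ) i]
    have : (D : ℝ) ^ i ≠ 0 := pow_ne_zero _ hD0
    field_simp
  rw [e1]
  set X := ((D : ℝ) * n + w) ^ (i + 1) with hX
  have e2 : (D : ℝ) ^ i * A * (n + r) ^ (i + 1) = u * A * X - q * z₁ := by linarith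
  have e3 : (w : ℝ) ^ (i + 1) = X - D * z₂ := by linarith
  rw [e2, e3]
  push_cast
  have e4 : A * X / (D * q) = A * X * (u * D + v * q) / (D * q) := by rw [r3, mul_one]
  rw [e4]
  field_simp
  ring

/-- the integer coefficient -/
def Ai (k x : ℕ) (a : ℕ → ℤ) (i : ℕ) : ℤ :=
  ∑ j ∈ Ico i k, (Nat.choose (j + 1) (i + 1) : ℤ) * (x : ℤ) ^ (j - i) * a j

/-- the real remainder -/
noncomputable def Ti (k D x : ℕ) (th : ℕ → ℝ) (i : ℕ) : ℝ :=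
  ∑ j ∈ Ico i k, (D : ℝ) ^ (i + 1) * ((Nat.choose (j + 1) (i + 1) : ℝ) * (x : ℝ) ^ (j - i) * th j)

theorem phr_split (k q D x : ℕ) (hq : 1 ≤ q) (hD : 1 ≤ D) (c : ℕ → ℝ) (a : ℕ → ℤ) (i : ℕ) :
    phr k D x c i = ((D : ℝ) ^ i * (Ai k x a i : ℤ)) / q +
      Ti k D x (fun j => c j - (a j : ℝ) / ((q * D : ℕ) : ℝ)) i := by
  unfold phr Ai Ti
  push_cast
  rw [Finset.mul_sum, Finset.sum_div, ← Finset.sum_add_distrib]
  refine Finset.sum_congr rfl fun j _ => ?_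
  have hq0 : (q : ℝ) ≠ 0 := by exact_mod_cast (show q ≠ 0 by omega)
  have hD0 : (D : ℝ) ≠ 0 := by exact_mod_cast (show D ≠ 0 by omega)
  rw [pow_succ (D : ℝ) i]
  field_simp
  ring

theorem Ti_bound (k D x N : ℕ) (hD : 1 ≤ D) (hN : 1 ≤ N) (hx : x < D) (th : ℕ → ℝ) (R : ℝ)
    (hR : 0 ≤ R) (i : ℕ) (h : ∀ j, i ≤ j → j < k → |th j| ≤ R / ((D : ℝ) * N) ^ (j + 1)) :
    |Ti k D x th i| ≤ ((k : ℝ) * 2 ^ k) * R / (N : ℝ) ^ (i + 1) := by
  unfold Ti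
  have hD0 : (0 : ℝ) < D := by exact_mod_cast (show 0 < D by omega)
  have hN0 : (0 : ℝ) < N := by exact_mod_cast (show 0 < N by omega)
  have hN1 : (1 : ℝ) ≤ N := by exact_mod_cast hN
  have hb : ∀ j ∈ Ico i k, |(D : ℝ) ^ (i + 1) *
      ((Nat.choose (j + 1) (i + 1) : ℝ) * (x : ℝ) ^ (j - i) * th j)| ≤
      2 ^ k * R / (N : ℝ) ^ (i + 1) := by
    intro j hj
    rw [Finset.mem_Ico] at hj
    have h1 := h j hj.1 hj.2
    have h2 : (Nat.choose (j + 1) (i + 1) : ℝ) ≤ 2 ^ k := by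
      have h3 : Nat.choose (j + 1) (i + 1) ≤ 2 ^ (j + 1) := Nat.choose_le_two_pow _ _
      have h4 : 2 ^ (j + 1) ≤ 2 ^ k := Nat.pow_le_pow_right (by norm_num) (by omega)
      exact_mod_cast h3.trans h4
    have h3 : (x : ℝ) ^ (j - i) ≤ (D : ℝ) ^ (j - i) :=
      pow_le_pow_left₀ (Nat.cast_nonneg x) (by exact_mod_cast hx.le) _
    rw [abs_mul, abs_mul, abs_mul, abs_of_nonneg (by positivity : (0 : ℝ) ≤ (D : ℝ) ^ (i + 1)),
      Nat.abs_cast, abs_of_nonneg (by positivity : (0 : ℝ) ≤ (x : ℝ) ^ (j - i))]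
    have h5 : (D : ℝ) ^ (i + 1) * ((Nat.choose (j + 1) (i + 1) : ℝ) * (x : ℝ) ^ (j - i) * |th j|) ≤
        (D : ℝ) ^ (i + 1) * (2 ^ k * (D : ℝ) ^ (j - i) * (R / ((D : ℝ) * N) ^ (j + 1))) := by
      gcongr
    refine h5.trans ?_
    have h6 : (D : ℝ) ^ (i + 1) * (2 ^ k * (D : ℝ) ^ (j - i) * (R / ((D : ℝ) * N) ^ (j + 1))) =
        2 ^ k * R / (N : ℝ) ^ (j + 1) := by
      have e : (D : ℝ) ^ (i + 1) * (D : ℝ) ^ (j - i) = (D : ℝ) ^ (j + 1) := by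
        rw [← pow_add]
        refine congrArg _ ?_
        omega
      rw [mul_pow]
      have e' : (D : ℝ) ^ (i + 1) * (2 ^ k * (D : ℝ) ^ (j - i) *
          (R / ((D : ℝ) ^ (j + 1) * (N : ℝ) ^ (j + 1)))) =
          ((D : ℝ) ^ (i + 1) * (D : ℝ) ^ (j - i)) * (2 ^ k * R) /
            ((D : ℝ) ^ (j + 1) * (N : ℝ) ^ (j + 1)) := by ring
      rw [e', e]
      have : (D : ℝ) ^ (j + 1) ≠ 0 := pow_ne_zero _ hD0.ne'
      rw [mul_div_mul_left _ _ this]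
    rw [h6]
    refine div_le_div_of_nonneg_left (by positivity) (by positivity) ?_
    exact pow_le_pow_right₀ hN1 (by omega)
  refine (Finset.abs_sum_le_sum_abs _ _).trans ?_
  refine (Finset.sum_le_sum hb).trans ?_
  rw [Finset.sum_const, Nat.card_Ico, nsmul_eq_mul]
  have h7 : ((k - i : ℕ) : ℝ) ≤ k := by exact_mod_cast Nat.sub_le k i
  have h8 : (0 : ℝ) ≤ 2 ^ k * R / (N : ℝ) ^ (i + 1) := by positivity
  calc ((k - i : ℕ) : ℝ) * (2 ^ k * R / (N : ℝ) ^ (i + 1))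
      ≤ k * (2 ^ k * R / (N : ℝ) ^ (i + 1)) := mul_le_mul_of_nonneg_right h7 h8
    _ = ((k : ℝ) * 2 ^ k) * R / (N : ℝ) ^ (i + 1) := by ring

theorem phase (k q D x : ℕ) (hk : 1 ≤ k) (hq : 1 ≤ q) (hD : 1 ≤ D) (c : ℕ → ℝ) (a : ℕ → ℤ)
    (u v : ℤ) (huv : u * D + v * q = 1) (y : ℕ) (r : ℤ) (hr : (q : ℤ) ∣ (D : ℤ) * r - ((y : ℤ) - x))
    (f : Fin k → ℤ) (η : Fin k → ℝ) (hf : ∀ i : Fin k, f i = (D : ℤ) ^ i.val * Ai k x a i.val)
    (hη : ∀ i : Fin k, η i = Ti k D x (fun j => c j - (a j : ℝ) / ((q * D : ℕ) : ℝ)) i.val) :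
    ∃ W : ℝ, ∀ n : ℕ, ∃ z : ℤ, pl k (phr k D x c) ((n : ℝ) + ((y : ℝ) - x) / D) =
      W + ((Fz f ((n : ℤ) + r) : ℝ) / q + phr k D x c 0 * n + Ps η (n + ((y : ℝ) - x) / D)) + z := by
  obtain ⟨k', rfl⟩ : ∃ k', k = k' + 1 := ⟨k - 1, by omega⟩
  refine ⟨phr (k' + 1) D x c 0 * (((y : ℝ) - x) / D) +
    ∑ i : Fin k', v * (Ai (k' + 1) x a (i.val + 1) : ℝ) * ((((y : ℤ) - x : ℤ)) : ℝ) ^ (i.val + 2) / D,
    fun n => ?_⟩
  have hz : ∀ i : Fin k', ∃ z : ℤ, ((D : ℝ) ^ (i.val + 1) * (Ai (k' + 1) x a (i.val + 1) : ℤ)) *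
      ((n : ℝ) + ((((y : ℤ) - x : ℤ)) : ℝ) / D) ^ (i.val + 2) / q =
      ((D : ℝ) ^ (i.val + 1) * (Ai (k' + 1) x a (i.val + 1) : ℤ)) * ((n : ℝ) + r) ^ (i.val + 2) / q +
        v * (Ai (k' + 1) x a (i.val + 1) : ℤ) * ((((y : ℤ) - x : ℤ)) : ℝ) ^ (i.val + 2) / D + z :=
    fun i => frac q D hq hD u v huv (Ai (k' + 1) x a (i.val + 1)) (i.val + 1) n r ((y : ℤ) - x) hr
  choose z hz using hz
  refine ⟨∑ i : Fin k', z i, ?_⟩
  have hcast : ((((y : ℤ) - x : ℤ)) : ℝ) = (y : ℝ) - x := by push_cast; rfl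
  rw [hcast] at hz
  rw [hcast]
  set s : ℝ := ((y : ℝ) - x) / D with hs
  have e1 : pl (k' + 1) (phr (k' + 1) D x c) ((n : ℝ) + s) =
      phr (k' + 1) D x c 0 * ((n : ℝ) + s) +
        ∑ i : Fin k', (((D : ℝ) ^ (i.val + 1) * (Ai (k' + 1) x a (i.val + 1) : ℤ)) *
          ((n : ℝ) + s) ^ (i.val + 2) / q + η i.succ * ((n : ℝ) + s) ^ (i.val + 2)) := by
    unfold pl
    rw [Finset.sum_range_succ', ← Fin.sum_univ_eq_sum_range
      (fun i => phr (k' + 1) D x c (i + 1) * ((n : ℝ) + s) ^ (i + 1 + 1)), add_comm]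
    refine congrArg₂ _ (by rw [zero_add, pow_one]) (Finset.sum_congr rfl fun i _ => ?_)
    rw [phr_split (k' + 1) q D x hq hD c a (i.val + 1), hη i.succ, Fin.val_succ]
    ring
  have e2 : Ps η ((n : ℝ) + s) = ∑ i : Fin k', η i.succ * ((n : ℝ) + s) ^ (i.val + 2) := by
    unfold Ps
    rw [Fin.sum_univ_succ, if_pos (by rfl), zero_add]
    refine Finset.sum_congr rfl fun i _ => ?_
    rw [if_neg (by rw [Fin.val_succ]; omega), Fin.val_succ]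
  have e3 : (Fz f ((n : ℤ) + r) : ℝ) = ∑ i : Fin k',
      ((D : ℝ) ^ (i.val + 1) * (Ai (k' + 1) x a (i.val + 1) : ℤ)) * ((n : ℝ) + r) ^ (i.val + 2) := by
    unfold Fz
    rw [Fin.sum_univ_succ, if_pos (by rfl), zero_add]
    push_cast
    refine Finset.sum_congr rfl fun i _ => ?_
    rw [if_neg (by rw [Fin.val_succ]; omega), hf i.succ, Fin.val_succ]
    push_cast
    ring
  rw [e1, e2, e3, Finset.sum_add_distrib, Finset.sum_congr rfl (fun i _ => hz i),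
    Finset.sum_add_distrib, Finset.sum_add_distrib, Finset.sum_div]
  push_cast
  ring

theorem pf_wEA' : W_EA := by
  intro k hk
  have hk1 : (1 : ℝ) ≤ k := by exact_mod_cast hk
  have h2k : (1 : ℝ) ≤ 2 ^ k := one_le_pow₀ (by norm_num)
  refine ⟨(k : ℝ) * 2 ^ k, by nlinarith, ?_⟩
  intro q D N x b c R hL hq hD hN hx hcop hR hnear
  have hna : ∀ j, ∃ a : ℤ, 1 ≤ j → j < k → |c j - (a : ℝ) / ((q * D : ℕ) : ℝ)| ≤
      R / ((D : ℝ) * N) ^ (j + 1) := by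
    intro j
    by_cases hj : 1 ≤ j ∧ j < k
    · obtain ⟨a, ha⟩ := hnear j hj.1 hj.2
      exact ⟨a, fun _ _ => ha⟩
    · exact ⟨0, fun h1 h2 => absurd ⟨h1, h2⟩ hj⟩
  choose a ha using hna
  obtain ⟨v, u, huv⟩ := Nat.isCoprime_iff_coprime.mpr hcop
  have huv' : u * (D : ℤ) + v * (q : ℤ) = 1 := by linarith
  refine ⟨fun i => (D : ℤ) ^ i.val * Ai k x a i.val,
    fun i => Ti k D x (fun j => c j - (a j : ℝ) / ((q * D : ℕ) : ℝ)) i.val, phr k D x c 0,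
    ?_, ?_, ?_, ?_⟩
  · intro i _
    rw [Lft_phr hL D x i, phr_split k q D x hq hD c a i.val]
    push_cast
    rfl
  · intro i hi
    refine Ti_bound k D x N hD hN hx _ R hR i.val ?_
    intro j hij hjk
    exact ha j (by omega) hjk
  · intro i hi
    rw [Lft_phr hL D x i, hi]
  · intro y r hy hr
    obtain ⟨W, hW⟩ := phase k q D x hk hq hD c a u v huv' y r hr
      (fun i => (D : ℤ) ^ i.val * Ai k x a i.val)
      (fun i => Ti k D x (fun j => c j - (a j : ℝ) / ((q * D : ℕ) : ℝ)) i.val)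
      (fun _ => rfl) (fun _ => rfl)
    have hD0 : (D : ℝ) ≠ 0 := by exact_mod_cast (show D ≠ 0 by omega)
    rw [u_eq (Lft_phr hL D y) N]
    unfold HH
    have hterm : ∀ n ∈ range N, ee (pl k (phr k D y c) n) =
        ee (W + pl k c x - pl k c y) *
          ee ((Fz (fun i : Fin k => (D : ℤ) ^ i.val * Ai k x a i.val) ((n : ℤ) + r) : ℝ) / q +
            phr k D x c 0 * n +
            Ps (fun i : Fin k => Ti k D x (fun j => c j - (a j : ℝ) / ((q * D : ℕ) : ℝ)) i.val)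
              (n + ((y : ℝ) - x) / D)) := by
      intro n _
      rw [← ee_add]
      obtain ⟨z, hz⟩ := hW n
      refine ee_congr _ _ z ?_
      have e1 := pl_phr k D y c (n : ℝ)
      have e2 := pl_phr k D x c ((n : ℝ) + ((y : ℝ) - x) / D)
      have e3 : (x : ℝ) + D * ((n : ℝ) + ((y : ℝ) - x) / D) = (y : ℝ) + D * n := by
        field_simp
        ring
      rw [e3] at e2
      rw [e1]
      rw [e2] at hz
      linarith
    rw [Finset.sum_congr rfl hterm, ← Finset.mul_sum, norm_mul, norm_mul, norm_mul, norm_ee,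
      one_mul]

end Pool.Agent.H73.LVP.EA

namespace Pool.Agent.H73.LVP

open Finset Pool.Agent.H24.CL Pool.Agent.H24.LV Pool.Agent.H31.LV

theorem pf_wEA : W_EA := EA.pf_wEA'

end Pool.Agent.H73.LVP
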