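import Pool.Agent.H31.LV.Basic
import Pool.Agent.H31.LV.Targets

/-!
# The lemma of Vinogradov on multiples close to integers (row wVL)
-/

set_option autoImplicit false

namespace Pool.Agent.H73.LVP

open Finset Pool.Agent.H24.CL Pool.Agent.H24.LV Pool.Agent.H31.LV

theorem sep_card (S : Finset ℕ) (N q : ℕ) (hq : 1 ≤ q) (hS : S ⊆ range N)
    (hsep : ∀ a ∈ S, ∀ b ∈ S, a < b → q ≤ b - a) : S.card ≤ N / q + 1 := by
  have h : S.card ≤ (range (N / q + 1)).card := by
    refine Finset.card_le_card_of_injOn (fun h => h / q) ?_ ?_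
    · intro a ha
      have h1 := Finset.mem_range.mp (hS ha)
      have h2 : a / q ≤ N / q := Nat.div_le_div_right h1.le
      exact Finset.mem_coe.mpr (Finset.mem_range.mpr (Nat.lt_succ_of_le h2))
    · have key : ∀ a ∈ S, ∀ b ∈ S, a / q = b / q → ¬ a < b := by
        intro a ha b hb hab hlt
        have h1 := hsep a ha b hb hlt
        have h2 := Nat.div_add_mod a q
        have h3 := Nat.div_add_mod b q
        have h4 := Nat.mod_lt b (show 0 < q by omega)
        rw [hab] at h2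
        omega
      intro a ha b hb hab
      rcases lt_trichotomy a b with h1 | h1 | h1
      · exact absurd h1 (key a ha b hb hab)
      · exact h1
      · exact absurd h1 (key b hb a ha hab.symm)
  rwa [Finset.card_range] at h

theorem block_card (B : Finset ℕ) (q J : ℕ) (hq : 1 ≤ q)
    (h : ∀ a ∈ B, ∀ b ∈ B, a < b → ∃ j, b - a = q * j ∧ j ≤ J) : B.card ≤ J + 1 := by
  rcases B.eq_empty_or_nonempty with he | hne
  · subst he
    simp
  · set h0 := B.min' hne with hh0
    have h0m : h0 ∈ B := B.min'_mem hne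
    have hle : ∀ b ∈ B, h0 ≤ b := fun b hb => B.min'_le b hb
    have hj : ∀ b ∈ B, ∃ j, b - h0 = q * j ∧ j ≤ J := by
      intro b hb
      rcases (hle b hb).eq_or_lt with h1 | h1
      · exact ⟨0, by omega, by omega⟩
      · exact h h0 h0m b hb h1
    have hc : B.card ≤ (range (J + 1)).card := by
      refine Finset.card_le_card_of_injOn (fun b => (b - h0) / q) ?_ ?_
      · intro b hb
        obtain ⟨j, hj1, hj2⟩ := hj b hb
        refine Finset.mem_coe.mpr (Finset.mem_range.mpr ?_)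
        show (b - h0) / q < J + 1
        rw [hj1, Nat.mul_div_cancel_left _ (by omega)]
        omega
      · intro a ha b hb hab
        obtain ⟨j, hj1, hj2⟩ := hj a ha
        obtain ⟨j', hj3, hj4⟩ := hj b hb
        have e : (a - h0) / q = (b - h0) / q := hab
        rw [hj1, hj3, Nat.mul_div_cancel_left _ (by omega), Nat.mul_div_cancel_left _ (by omega)]
          at e
        have h1 := hle a ha
        have h2 := hle b hb
        rw [e] at hj1
        omega
    rwa [Finset.card_range] at hc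

/-- the difference of two good numbers -/
theorem good_diff (α ε : ℝ) (a b : ℕ) (hab : a < b) (ha : ∃ m : ℤ, |a * α - m| ≤ ε)
    (hb : ∃ m : ℤ, |b * α - m| ≤ ε) : ∃ m : ℤ, |((b - a : ℕ) : ℝ) * α - m| ≤ 2 * ε := by
  obtain ⟨m, hm⟩ := ha
  obtain ⟨m', hm'⟩ := hb
  refine ⟨m' - m, ?_⟩
  rw [Nat.cast_sub hab.le]
  push_cast
  have e : ((b : ℝ) - a) * α - ((m' : ℝ) - m) = (b * α - m') - (a * α - m) := by ring
  rw [e]
  have h := abs_sub (b * α - (m' : ℝ)) (a * α - m)
  linarith

/-- the multiples of the denominator -/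
theorem good_mult (α ε δ β : ℝ) (q : ℕ) (m : ℤ) (hq : 1 ≤ q) (hδ : 0 < δ)
    (hqδ : (q : ℝ) ≤ 4 / (3 * δ)) (hε : ε ≤ δ / 64) (hδ1 : δ ≤ 1) (hcop : IsCoprime m (q : ℤ))
    (hβ : β = |q * α - m|) (n : ℕ) (hn : (n : ℝ) * β ≤ 1 / 4)
    (hg : ∃ m' : ℤ, |(n : ℝ) * α - m'| ≤ 2 * ε) :
    ∃ j : ℕ, n = q * j ∧ (j : ℝ) * β ≤ 2 * ε := by
  obtain ⟨m', hm'⟩ := hg
  have hq0 : (0 : ℝ) < q := by exact_mod_cast (show 0 < q by omega)
  have hβ0 : 0 ≤ β := by rw [hβ]; exact abs_nonneg _
  have hdiv : q ∣ n := by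
    by_contra hnd
    have hne : (n : ℤ) * m - q * m' ≠ 0 := by
      intro h0
      have h1 : (q : ℤ) ∣ (n : ℤ) * m := ⟨m', by linarith⟩
      have h2 : (q : ℤ) ∣ (n : ℤ) := hcop.symm.dvd_of_dvd_mul_right h1
      exact hnd (by exact_mod_cast h2)
    have h1 : (1 : ℝ) ≤ |(n : ℝ) * m - q * m'| := by
      have h2 : (1 : ℤ) ≤ |(n : ℤ) * m - q * m'| := Int.one_le_abs hne
      have h3 : ((|(n : ℤ) * m - q * m'| : ℤ) : ℝ) = |(n : ℝ) * m - q * m'| := by
        push_cast
        rfl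
      rw [← h3]
      exact_mod_cast h2
    have h2 : (n : ℝ) * m - q * m' = q * ((n : ℝ) * α - m') - n * (q * α - m) := by ring
    have h3 : |(n : ℝ) * m - q * m'| ≤ q * (2 * ε) + n * β := by
      rw [h2]
      refine (abs_sub _ _).trans ?_
      rw [abs_mul, abs_mul, Nat.abs_cast, Nat.abs_cast, ← hβ]
      gcongr
    have h4 : (q : ℝ) * (2 * ε) ≤ 4 / (3 * δ) * (2 * (δ / 64)) := by
      rcases le_or_gt 0 ε with h | h
      · refine mul_le_mul hqδ (by linarith) (by linarith) (by positivity)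
      · have h5 : (q : ℝ) * (2 * ε) ≤ 0 := mul_nonpos_of_nonneg_of_nonpos hq0.le (by linarith)
        have h6 : (0 : ℝ) ≤ 4 / (3 * δ) * (2 * (δ / 64)) := by positivity
        linarith
    have h5 : 4 / (3 * δ) * (2 * (δ / 64)) = 1 / 24 := by
      field_simp
      norm_num
    linarith
  obtain ⟨j, hj⟩ := hdiv
  refine ⟨j, hj, ?_⟩
  have hjβ : (j : ℝ) * β ≤ 1 / 4 := by
    have h1 : (j : ℝ) ≤ n := by
      rw [hj]
      push_cast
      have h2 : (1 : ℝ) ≤ q := by exact_mod_cast hq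
      have h3 : (0 : ℝ) ≤ j := Nat.cast_nonneg j
      nlinarith
    exact le_trans (mul_le_mul_of_nonneg_right h1 hβ0) hn
  have e1 : (n : ℝ) * α - m' = j * (q * α - m) + ((j : ℝ) * m - m') := by
    rw [hj]
    push_cast
    ring
  have habs : |(j : ℝ) * (q * α - m)| = j * β := by
    rw [abs_mul, Nat.abs_cast, ← hβ]
  have e2 : |(j : ℝ) * m - m'| < 1 := by
    have e3 : (j : ℝ) * m - m' = ((n : ℝ) * α - m') - j * (q * α - m) := by linarith
    rw [e3]
    refine lt_of_le_of_lt (abs_sub _ _) ?_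
    rw [habs]
    linarith
  have e3 : (j : ℤ) * m - m' = 0 := by
    have h1 : |(j : ℤ) * m - m'| < 1 := by
      have h3 : ((|(j : ℤ) * m - m'| : ℤ) : ℝ) = |(j : ℝ) * m - m'| := by
        push_cast
        rfl
      have h4 : ((|(j : ℤ) * m - m'| : ℤ) : ℝ) < 1 := by rw [h3]; exact e2
      exact_mod_cast h4
    exact Int.abs_lt_one_iff.mp h1
  have e4 : (j : ℝ) * m - m' = 0 := by exact_mod_cast e3
  rw [e1, e4, add_zero, habs] at hm'
  exact hm'

theorem pf_wVL : W_VL := by
  intro α ε δ N S hδ hδ1 hε0 hε hN hS hcard hgood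
  have hN0 : (0 : ℝ) < N := by
    by_contra h
    have h1 : (N : ℝ) ≤ 0 := not_lt.mp h
    have : δ * N ≤ 0 := mul_nonpos_of_nonneg_of_nonpos hδ.le h1
    linarith
  classical
  let P : ℕ → Prop := fun n => 1 ≤ n ∧ ∃ m : ℤ, |(n : ℝ) * α - m| ≤ 2 * ε
  have hdiff : ∀ a ∈ S, ∀ b ∈ S, a < b → P (b - a) := by
    intro a ha b hb hab
    exact ⟨by omega, good_diff α ε a b hab (hgood a ha) (hgood b hb)⟩
  have hex : ∃ n, P n := by
    have h2 : 1 < S.card := by
      have : (1 : ℝ) < S.card := by linarith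
      exact_mod_cast this
    obtain ⟨a, ha, b, hb, hab⟩ := Finset.one_lt_card.mp h2
    rcases lt_or_gt_of_ne hab with h | h
    · exact ⟨_, hdiff a ha b hb h⟩
    · exact ⟨_, hdiff b hb a ha h⟩
  obtain ⟨q, hq, hmin⟩ : ∃ q, P q ∧ ∀ n, P n → q ≤ n :=
    ⟨Nat.find hex, Nat.find_spec hex, fun n hn => Nat.find_min' hex hn⟩
  obtain ⟨hq1, m, hm⟩ := hq
  have hq0 : (0 : ℝ) < q := by exact_mod_cast (show 0 < q by omega)
  -- the size of `q`
  have hqδ : (q : ℝ) ≤ 4 / (3 * δ) := by
    have h1 := sep_card S N q hq1 hS (fun a ha b hb hab => hmin _ (hdiff a ha b hb hab))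
    have h2 : (S.card : ℝ) ≤ N / q + 1 := by
      have h3 : (S.card : ℝ) ≤ ((N / q : ℕ) : ℝ) + 1 := by exact_mod_cast h1
      have h4 : ((N / q : ℕ) : ℝ) ≤ (N : ℝ) / q := Nat.cast_div_le
      linarith
    have h3 : 3 / 4 * (δ * N) ≤ (N : ℝ) / q := by linarith
    rw [le_div_iff₀ hq0] at h3
    rw [le_div_iff₀ (by positivity)]
    have h4 : N * ((q : ℝ) * (3 * δ)) ≤ N * 4 := by nlinarith
    exact le_of_mul_le_mul_left h4 hN0
  refine ⟨q, hq1, ?_, m, ?_⟩
  · refine hqδ.trans ?_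
    rw [div_le_div_iff₀ (by positivity) hδ]
    nlinarith
  set β : ℝ := |q * α - m| with hβ
  by_contra hcon
  have hcon' : 8 * ε / (δ * N) < β := not_le.mp hcon
  have hδN : 0 < δ * N := by positivity
  have hβ0 : 0 < β := lt_of_le_of_lt (by positivity) hcon'
  have hε' : 0 < ε := by
    by_contra h
    have : ε = 0 := le_antisymm (not_lt.mp h) hε0
    rw [this] at hm
    linarith
  have hcop : IsCoprime m (q : ℤ) := by
    rw [Int.isCoprime_iff_gcd_eq_one]
    by_contra hg
    have hg0 : Int.gcd m q ≠ 0 := by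
      intro h
      rw [Int.gcd_eq_zero_iff] at h
      have := h.2
      omega
    set g := Int.gcd m q with hgdef
    have hg2 : 2 ≤ g := by omega
    have hgq : g ∣ q := by
      have : ((g : ℕ) : ℤ) ∣ (q : ℤ) := Int.gcd_dvd_right ..
      exact_mod_cast this
    have hgm : (g : ℤ) ∣ m := Int.gcd_dvd_left ..
    obtain ⟨q', hq'⟩ := hgq
    obtain ⟨m', hm'⟩ := hgm
    have hq'0 : 1 ≤ q' := by
      rcases Nat.eq_zero_or_pos q' with h | h
      · rw [h, Nat.mul_zero] at hq'
        omega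
      · exact h
    have hP : P q' := by
      refine ⟨hq'0, m', ?_⟩
      have e : (q : ℝ) * α - m = g * (q' * α - m') := by
        rw [hm', hq']
        push_cast
        ring
      have h1 : |(q : ℝ) * α - m| = g * |q' * α - m'| := by
        rw [e, abs_mul, Nat.abs_cast]
      have h2 : (2 : ℝ) ≤ g := by exact_mod_cast hg2
      have h3 : 0 ≤ |(q' : ℝ) * α - m'| := abs_nonneg _
      have h4 : |(q' : ℝ) * α - m'| ≤ |(q : ℝ) * α - m| := by
        rw [h1]
        nlinarith
      exact h4.trans hm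
    have h1 := hmin q' hP
    have h2 : q' < q := by
      rw [hq']
      nlinarith
    omega
  -- the windows
  set L : ℕ := ⌊1 / (4 * β)⌋₊ with hL
  have hβ2 : β ≤ 1 / 32 := by
    have h1 : β ≤ 2 * ε := hm
    linarith
  have hLx : (8 : ℝ) ≤ 1 / (4 * β) := by
    rw [le_div_iff₀ (by positivity)]
    linarith
  have hL8 : 8 ≤ L := Nat.le_floor (by exact_mod_cast hLx)
  have hLle : (L : ℝ) ≤ 1 / (4 * β) := Nat.floor_le (by positivity)
  have hLge : 7 / 8 * (1 / (4 * β)) ≤ L := by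
    have h1 : 1 / (4 * β) < L + 1 := Nat.lt_floor_add_one _
    linarith
  set J : ℕ := ⌊2 * ε / β⌋₊ with hJ
  have hfib : ∀ w ∈ S.image (fun h => h / L), (S.filter fun h => h / L = w).card ≤ J + 1 := by
    intro w _
    refine block_card _ q J hq1 ?_
    intro a ha b hb hab
    rw [Finset.mem_filter] at ha hb
    have hlt : b - a < L := by
      have h2 := Nat.div_add_mod a L
      have h3 := Nat.div_add_mod b L
      have h4 := Nat.mod_lt b (show 0 < L by omega)
      rw [ha.2] at h2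
      rw [hb.2] at h3
      omega
    have hn : ((b - a : ℕ) : ℝ) * β ≤ 1 / 4 := by
      have h1 : ((b - a : ℕ) : ℝ) ≤ 1 / (4 * β) := by
        have : ((b - a : ℕ) : ℝ) ≤ L := by exact_mod_cast hlt.le
        exact this.trans hLle
      have h2 := mul_le_mul_of_nonneg_right h1 hβ0.le
      have h3 : 1 / (4 * β) * β = 1 / 4 := by
        field_simp
      linarith
    obtain ⟨j, hj1, hj2⟩ := good_mult α ε δ β q m hq1 hδ hqδ hε hδ1 hcop hβ (b - a) hn
      (hdiff a ha.1 b hb.1 hab).2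
    refine ⟨j, hj1, Nat.le_floor ?_⟩
    rw [le_div_iff₀ hβ0]
    exact hj2
  have himg : (S.image (fun h => h / L)).card ≤ N / L + 1 := by
    have h1 : S.image (fun h => h / L) ⊆ range (N / L + 1) := by
      intro w hw
      obtain ⟨h, hh, rfl⟩ := Finset.mem_image.mp hw
      have h1 := Finset.mem_range.mp (hS hh)
      have h2 : h / L ≤ N / L := Nat.div_le_div_right h1.le
      exact Finset.mem_range.mpr (by omega)
    have h2 := Finset.card_le_card h1
    rwa [Finset.card_range] at h2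
  have htot : S.card ≤ (J + 1) * (N / L + 1) :=
    (Finset.card_le_mul_card_image S (J + 1) hfib).trans (Nat.mul_le_mul_left _ himg)
  have hJr : (J : ℝ) ≤ 2 * ε / β := Nat.floor_le (by positivity)
  have hL0 : (0 : ℝ) < L := by exact_mod_cast (show 0 < L by omega)
  have hNL : ((N / L : ℕ) : ℝ) ≤ 32 / 7 * (β * N) := by
    have h4 : ((N / L : ℕ) : ℝ) ≤ (N : ℝ) / L := Nat.cast_div_le
    refine h4.trans ?_
    rw [div_le_iff₀ hL0]
    have h5 : 7 / 8 * (1 / (4 * β)) * (32 / 7 * (β * N)) = N := by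
      field_simp
      norm_num
    have h6 : 0 ≤ 32 / 7 * (β * N) := by positivity
    nlinarith [mul_le_mul_of_nonneg_right hLge h6]
  have hreal : (S.card : ℝ) ≤ (2 * ε / β + 1) * (32 / 7 * (β * N) + 1) := by
    have h1 : (S.card : ℝ) ≤ ((J : ℝ) + 1) * (((N / L : ℕ) : ℝ) + 1) := by exact_mod_cast htot
    refine h1.trans ?_
    refine mul_le_mul (by linarith) (by linarith) (by positivity) (by positivity)
  have hexp : (2 * ε / β + 1) * (32 / 7 * (β * N) + 1) =
      64 / 7 * (ε * N) + 2 * ε / β + 32 / 7 * (β * N) + 1 := by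
    field_simp
    ring
  have h1 : 2 * ε / β ≤ δ * N / 4 := by
    rw [div_le_iff₀ hβ0]
    rw [div_lt_iff₀ hδN] at hcon'
    nlinarith
  have h2 : β * N ≤ 2 * (ε * N) := by
    have h3 : β ≤ 2 * ε := hm
    nlinarith
  have h3 : ε * N ≤ δ * N / 64 := by
    nlinarith
  rw [hexp] at hreal
  linarith

end Pool.Agent.H73.LVP
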